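import Mathlib
import Pool.Agent.Lib.MP_0a5adf_nt.H45.DecayIface

/-! Module EXIT of part (A) of finding 2240. -/

namespace Pool.Agent.Lib.MP_0a5adf_nt.H93

open Pool.Agent.Lib.MP_0a5adf_nt.H45 Finset

theorem wt_nonneg (ρ : ℕ → ℕ → ℤ) (J j l b : ℕ) : 0 ≤ wt ρ J j l b := by
  unfold wt; split_ifs
  · exact abs_nonneg _
  · exact zero_le_one

theorem wt_le_one (ρ : ℕ → ℕ → ℤ) (J j l b : ℕ) : wt ρ J j l b ≤ 1 := by
  unfold wt; split_ifs
  · exact Real.abs_cos_le_one _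
  · exact le_refl _

theorem p_nonneg {b : ℕ} (hb : 2 ≤ b) : (0 : ℝ) ≤ ((b : ℝ) - 1) / 2 ^ b := by
  have : (2 : ℝ) ≤ b := by exact_mod_cast hb
  apply div_nonneg <;> [linarith; positivity]

theorem sum_tail (v : ℕ) : ∀ B, v ≤ B →
    ∑ b ∈ (Icc 2 B).filter (fun b => v < b), (((b : ℕ) : ℝ) - 1) / 2 ^ b
      = ((v : ℝ) + 1) / 2 ^ v - ((B : ℝ) + 1) / 2 ^ B := by
  intro B hB
  induction B, hB using Nat.le_induction with
  | base =>
    rw [Finset.filter_false_of_mem]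
    · simp
    · intro b hb
      rw [mem_Icc] at hb
      omega
  | succ B hB ih =>
    by_cases h2 : 1 ≤ B
    · rw [← Finset.insert_Icc_right_eq_Icc_add_one (by omega : 2 ≤ B + 1), Finset.filter_insert,
        if_pos (by omega), Finset.sum_insert (by simp), ih]
      push_cast
      rw [pow_succ]
      field_simp
      ring
    · have hB0 : B = 0 := by omega
      have hv0 : v = 0 := by omega
      subst hB0 hv0
      simp

theorem sum_tail_le (v B : ℕ) :
    ∑ b ∈ (Icc 2 B).filter (fun b => v < b), (((b : ℕ) : ℝ) - 1) / 2 ^ b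
      ≤ ((v : ℝ) + 1) / 2 ^ v := by
  by_cases h : v ≤ B
  · rw [sum_tail v B h]
    have : (0 : ℝ) ≤ ((B : ℝ) + 1) / 2 ^ B := by positivity
    linarith
  · rw [Finset.filter_false_of_mem]
    · simp; positivity
    · intro b hb
      rw [mem_Icc] at hb
      omega

theorem geo_sum (n : ℕ) :
    ∑ b ∈ Icc 2 n, (((b : ℕ) : ℝ) - 1) * (7 / 16 : ℝ) ^ b
      = 49 / 81 - (7 / 16 : ℝ) ^ (n + 1) * (16 / 9 * n + 112 / 81) := by
  induction n with
  | zero => norm_num
  | succ n ih =>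
    by_cases h2 : 1 ≤ n
    · rw [← Finset.insert_Icc_right_eq_Icc_add_one (by omega : 2 ≤ n + 1), Finset.sum_insert (by simp), ih]
      push_cast
      ring
    · have hB0 : n = 0 := by omega
      subst hB0
      norm_num

theorem rem_sum (v : ℕ) :
    ∑ b ∈ Icc 2 v, (((b : ℕ) : ℝ) - 1) / 2 ^ b * (8 / 7 : ℝ) ^ (v - b)
      ≤ (8 / 7 : ℝ) ^ v * (7 / 9 : ℝ) ^ 2 := by
  have h1 : ∀ b ∈ Icc 2 v, (((b : ℕ) : ℝ) - 1) / 2 ^ b * (8 / 7 : ℝ) ^ (v - b)
      = (8 / 7 : ℝ) ^ v * ((((b : ℕ) : ℝ) - 1) * (7 / 16 : ℝ) ^ b) := by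
    intro b hb
    rw [mem_Icc] at hb
    have h2 : (8 / 7 : ℝ) ^ v = (8 / 7 : ℝ) ^ (v - b) * (8 / 7) ^ b := by
      rw [← pow_add]; congr 1; omega
    rw [h2]
    have h3 : (8 / 7 : ℝ) ^ b * (7 / 16) ^ b = 1 / 2 ^ b := by
      rw [← mul_pow, ← one_div_pow]; norm_num
    have h4 : (8 / 7 : ℝ) ^ (v - b) * (8 / 7) ^ b * ((((b : ℕ) : ℝ) - 1) * (7 / 16 : ℝ) ^ b)
        = (8 / 7 : ℝ) ^ (v - b) * (((b : ℕ) : ℝ) - 1) * ((8 / 7 : ℝ) ^ b * (7 / 16) ^ b) := by ring
    rw [h4, h3]; ring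
  rw [Finset.sum_congr rfl h1, ← Finset.mul_sum, geo_sum]
  apply mul_le_mul_of_nonneg_left _ (by positivity)
  have : (0 : ℝ) ≤ (7 / 16 : ℝ) ^ (v + 1) * (16 / 9 * v + 112 / 81) := by positivity
  norm_num at this ⊢
  linarith

theorem hockey (k : ℕ) (hk : 1 ≤ k) (v : ℕ) :
    ∑ i ∈ range v, (((i + 1).choose k : ℕ) : ℝ) = ((v + 1).choose (k + 1) : ℕ) := by
  induction v with
  | zero =>
    rw [Finset.sum_range_zero, Nat.choose_eq_zero_of_lt (by omega)]; simp
  | succ v ih =>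
    rw [Finset.sum_range_succ, ih, Nat.choose_succ_succ (v + 1) k]
    push_cast; ring

theorem conv_range (k : ℕ) (hk : 1 ≤ k) (v : ℕ) :
    ∑ i ∈ range v, ((v : ℝ) - i - 1) * (((i + 1).choose k : ℕ) : ℝ)
      = ((v + 1).choose (k + 2) : ℕ) := by
  induction v with
  | zero =>
    rw [Finset.sum_range_zero, Nat.choose_eq_zero_of_lt (by omega)]; simp
  | succ v ih =>
    rw [Finset.sum_range_succ, Nat.choose_succ_succ (v + 1) (k + 1)]
    push_cast
    have h1 : ∑ i ∈ range v, ((v : ℝ) + 1 - i - 1) * (((i + 1).choose k : ℕ) : ℝ)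
        = ∑ i ∈ range v, ((v : ℝ) - i - 1) * (((i + 1).choose k : ℕ) : ℝ)
          + ∑ i ∈ range v, (((i + 1).choose k : ℕ) : ℝ) := by
      rw [← Finset.sum_add_distrib]
      apply Finset.sum_congr rfl
      intro i _
      ring
    rw [h1, ih, hockey k hk]
    ring

theorem conv_Icc (k : ℕ) (hk : 1 ≤ k) (v : ℕ) :
    ∑ b ∈ Icc 2 v, ((b : ℝ) - 1) * (((v - b + 1).choose k : ℕ) : ℝ)
      = ((v + 1).choose (k + 2) : ℕ) := by
  rw [← conv_range k hk v]
  cases v with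
  | zero => simp
  | succ n =>
    rw [Finset.sum_range_succ]
    have h0 : (((n + 1 : ℕ) : ℝ) - n - 1) * (((n + 1).choose k : ℕ) : ℝ) = 0 := by
      push_cast; ring
    rw [h0, add_zero]
    apply Finset.sum_nbij' (fun b => n + 1 - b) (fun i => n + 1 - i)
    · intro b hb; rw [mem_Icc] at hb; rw [mem_range]; omega
    · intro i hi; rw [mem_range] at hi; rw [mem_Icc]; omega
    · intro b hb; rw [mem_Icc] at hb; omega
    · intro i hi; rw [mem_range] at hi; omega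
    · intro b hb
      rw [mem_Icc] at hb
      have : ((n + 1 - b : ℕ) : ℝ) = (n : ℝ) + 1 - b := by
        rw [Nat.cast_sub (by omega)]; push_cast; ring
      rw [this]
      push_cast
      ring

theorem ex_conv (v t : ℕ) (ht : 1 ≤ t) :
    ∑ b ∈ Icc 2 v, (((b : ℕ) : ℝ) - 1) / 2 ^ b * ex (v - b) t = ex v (t + 1) := by
  unfold ex
  have h1 : ∀ b ∈ Icc 2 v, (((b : ℕ) : ℝ) - 1) / 2 ^ b *
      (((v - b + 1).choose (2 * t - 1) : ℝ) / 2 ^ (v - b))
      = (((b : ℕ) : ℝ) - 1) * ((v - b + 1).choose (2 * t - 1) : ℝ) / 2 ^ v := by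
    intro b hb
    rw [mem_Icc] at hb
    have h2 : (2 : ℝ) ^ v = 2 ^ b * 2 ^ (v - b) := by
      rw [← pow_add]; congr 1; omega
    rw [h2]
    field_simp
  rw [Finset.sum_congr rfl h1, ← Finset.sum_div, conv_Icc (2 * t - 1) (by omega) v]
  have h3 : 2 * t - 1 + 2 = 2 * (t + 1) - 1 := by omega
  rw [h3]

theorem ex_nonneg (v t : ℕ) : 0 ≤ ex v t := by unfold ex; positivity

theorem ex_one (v : ℕ) : ex v 1 = ((v : ℝ) + 1) / 2 ^ v := by
  unfold ex; simp

theorem sum_shift (g : ℕ → ℝ) (T : ℕ) :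
    ∑ t ∈ Icc 1 (T + 1), g t = g 1 + ∑ t ∈ Icc 1 T, g (t + 1) := by
  induction T with
  | zero => simp
  | succ T ih =>
    rw [Finset.sum_Icc_succ_top (by omega), ih, Finset.sum_Icc_succ_top (by omega)]
    ring

theorem exit (he : EasyStatement) : ExitStatement := by
  intro B J ρ T
  induction T with
  | zero =>
    intro v m l Φ hT h1 h2
    have h3 := (he.2 B J ρ m l).2
    have h4 : (1 : ℝ) ≤ (8 / 7 : ℝ) ^ v := one_le_pow₀ (by norm_num)
    simp only [mul_zero, pow_zero, mul_one]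
    rw [Finset.Icc_eq_empty (by omega), Finset.sum_empty]
    linarith
  | succ T ih =>
    intro v m l Φ hT h1 h2
    obtain ⟨m', rfl⟩ : ∃ m', m = m' + 1 := ⟨m - 1, by omega⟩
    set X : ℕ → ℝ := fun b => ∑ t ∈ Icc 1 T, ex (v - b) t * Φ (t + 1)
      + (8 / 7 : ℝ) ^ (v - b) * (7 / 9 : ℝ) ^ (2 * T) with hX
    have hXn : ∀ b, 0 ≤ X b := by
      intro b
      apply add_nonneg
      · exact Finset.sum_nonneg fun t _ => mul_nonneg (ex_nonneg _ _) (h2 _)
      · positivity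
    have hQ : Q ρ J B (m' + 1) l ≤
        ∑ b ∈ Icc 2 B, (((b : ℕ) : ℝ) - 1) / 2 ^ b * (if v < b then Φ 1 else X b) := by
      unfold Q
      apply Finset.sum_le_sum
      intro b hb
      rw [mem_Icc] at hb
      have hp := p_nonneg hb.1
      have hQn := (he.2 B J ρ m' (l + b)).1
      have hstep : Q ρ J B m' (l + b) ≤ if v < b then Φ 1 else X b := by
        split_ifs with hvb
        · have := h1 1 b (le_refl 1) (by omega) hvb (by omega)
          simpa using this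
        · have := ih (v - b) m' (l + b) (fun t => Φ (t + 1)) (by omega) ?_ (fun t => h2 _)
          · exact this
          · intro t s ht1 ht2 hs1 hs2
            have h5 := h1 (t + 1) (b + s) (by omega) (by omega) (by omega) (by omega)
            have e1 : m' + 1 - (t + 1) = m' - t := by omega
            rw [e1, ← add_assoc] at h5
            exact h5
      calc (((b : ℕ) : ℝ) - 1) / 2 ^ b * wt ρ J (J - (m' + 1)) l b * Q ρ J B m' (l + b)
          ≤ (((b : ℕ) : ℝ) - 1) / 2 ^ b * 1 * Q ρ J B m' (l + b) := by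
            apply mul_le_mul_of_nonneg_right _ hQn
            exact mul_le_mul_of_nonneg_left (wt_le_one _ _ _ _ _) hp
        _ ≤ (((b : ℕ) : ℝ) - 1) / 2 ^ b * (if v < b then Φ 1 else X b) := by
            rw [mul_one]
            exact mul_le_mul_of_nonneg_left hstep hp
    have hsplit : ∑ b ∈ Icc 2 B, (((b : ℕ) : ℝ) - 1) / 2 ^ b * (if v < b then Φ 1 else X b)
        = ∑ b ∈ (Icc 2 B).filter (fun b => v < b), (((b : ℕ) : ℝ) - 1) / 2 ^ b * Φ 1
          + ∑ b ∈ (Icc 2 B).filter (fun b => ¬ v < b), (((b : ℕ) : ℝ) - 1) / 2 ^ b * X b := by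
      rw [← Finset.sum_filter_add_sum_filter_not (Icc 2 B) (fun b => v < b)]
      congr 1
      · apply Finset.sum_congr rfl
        intro b hb
        rw [mem_filter] at hb
        rw [if_pos hb.2]
      · apply Finset.sum_congr rfl
        intro b hb
        rw [mem_filter] at hb
        rw [if_neg hb.2]
    have hA : ∑ b ∈ (Icc 2 B).filter (fun b => v < b), (((b : ℕ) : ℝ) - 1) / 2 ^ b * Φ 1
        ≤ ex v 1 * Φ 1 := by
      rw [← Finset.sum_mul, ex_one]
      exact mul_le_mul_of_nonneg_right (sum_tail_le v B) (h2 1)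
    have hB : ∑ b ∈ (Icc 2 B).filter (fun b => ¬ v < b), (((b : ℕ) : ℝ) - 1) / 2 ^ b * X b
        ≤ ∑ b ∈ Icc 2 v, (((b : ℕ) : ℝ) - 1) / 2 ^ b * X b := by
      apply Finset.sum_le_sum_of_subset_of_nonneg
      · intro b hb
        rw [mem_filter, mem_Icc] at hb
        rw [mem_Icc]; omega
      · intro b hb _
        rw [mem_Icc] at hb
        exact mul_nonneg (p_nonneg hb.1) (hXn b)
    have hC : ∑ b ∈ Icc 2 v, (((b : ℕ) : ℝ) - 1) / 2 ^ b * X b
        ≤ ∑ t ∈ Icc 1 T, ex v (t + 1) * Φ (t + 1)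
          + (8 / 7 : ℝ) ^ v * (7 / 9 : ℝ) ^ (2 * (T + 1)) := by
      simp only [hX, mul_add]
      rw [Finset.sum_add_distrib]
      apply add_le_add
      · have e1 : ∀ b ∈ Icc 2 v, (((b : ℕ) : ℝ) - 1) / 2 ^ b *
            ∑ t ∈ Icc 1 T, ex (v - b) t * Φ (t + 1)
            = ∑ t ∈ Icc 1 T, (((b : ℕ) : ℝ) - 1) / 2 ^ b * ex (v - b) t * Φ (t + 1) := by
          intro b _
          rw [Finset.mul_sum]
          apply Finset.sum_congr rfl
          intro t _
          ring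
        rw [Finset.sum_congr rfl e1, Finset.sum_comm]
        apply Finset.sum_le_sum
        intro t ht
        rw [mem_Icc] at ht
        rw [← Finset.sum_mul, ex_conv v t ht.1]
      · have e2 : ∀ b ∈ Icc 2 v, (((b : ℕ) : ℝ) - 1) / 2 ^ b *
            ((8 / 7 : ℝ) ^ (v - b) * (7 / 9 : ℝ) ^ (2 * T))
            = ((((b : ℕ) : ℝ) - 1) / 2 ^ b * (8 / 7 : ℝ) ^ (v - b)) * (7 / 9 : ℝ) ^ (2 * T) := by
          intro b _; ring
        rw [Finset.sum_congr rfl e2, ← Finset.sum_mul]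
        calc _ ≤ ((8 / 7 : ℝ) ^ v * (7 / 9 : ℝ) ^ 2) * (7 / 9 : ℝ) ^ (2 * T) :=
              mul_le_mul_of_nonneg_right (rem_sum v) (by positivity)
          _ = (8 / 7 : ℝ) ^ v * (7 / 9 : ℝ) ^ (2 * T + 2) := by rw [pow_add]; ring
    have hD : ∑ t ∈ Icc 1 (T + 1), ex v t * Φ t
        = ex v 1 * Φ 1 + ∑ t ∈ Icc 1 T, ex v (t + 1) * Φ (t + 1) :=
      sum_shift (fun t => ex v t * Φ t) T
    rw [hD]
    linarith

end Pool.Agent.Lib.MP_0a5adf_nt.H93
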