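import Mathlib

/-!
Finding 2240 (TAO+), notation: finite sets `S` of positive integers, `XS h S` (= `X(S)` computed with
`h` in place of `1/2`), concatenation, the families `Fam n c` and the Fourier coefficients
`F n c ξ = 2^{-c} ∑_{S ∈ Fam n c} e(ξ X(S) / 3^n)`.
-/

namespace Pool.Agent.Lib.MP_0a5adf_nt.H93

open Finset

/-- `X(S) = ∑_{x ∈ S} 3^{#{y ∈ S : y < x}} h^x`. -/
def XS {R : Type*} [CommRing R] (h : R) (S : Finset ℕ) : R :=
  ∑ x ∈ S, 3 ^ (S.filter (fun y => y < x)).card * h ^ x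

/-- concatenation `A ∪ (a + B)` -/
def cat (a : ℕ) (A B : Finset ℕ) : Finset ℕ := A ∪ B.map (addLeftEmbedding a)

/-- sets of `n` positive integers with maximum `c` (`Fam 0 0 = {∅}`, `Fam 0 (c+1) = ∅`). -/
def Fam (n c : ℕ) : Finset (Finset ℕ) :=
  ((Icc 1 c).powersetCard n).filter (fun S => S.sup id = c)

/-- `F_{n,c}(ξ)` -/
noncomputable def F (n c : ℕ) (ξ : ZMod (3 ^ n)) : ℂ :=
  (1 / 2 : ℂ) ^ c * ∑ S ∈ Fam n c, ZMod.stdAddChar (ξ * XS (2⁻¹ : ZMod (3 ^ n)) S)

theorem mem_Fam {n c : ℕ} {S : Finset ℕ} :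
    S ∈ Fam n c ↔ (∀ x ∈ S, 1 ≤ x) ∧ S.card = n ∧ S.sup id = c := by
  unfold Fam
  rw [mem_filter, mem_powersetCard]
  constructor
  · rintro ⟨⟨h1, h2⟩, h3⟩
    exact ⟨fun x hx => (mem_Icc.mp (h1 hx)).1, h2, h3⟩
  · rintro ⟨h1, h2, h3⟩
    refine ⟨⟨fun x hx => mem_Icc.mpr ⟨h1 x hx, ?_⟩, h2⟩, h3⟩
    rw [← h3]
    exact Finset.le_sup (f := id) hx

theorem disjoint_cat {a : ℕ} {A B : Finset ℕ} (hA : ∀ x ∈ A, x ≤ a) (hB : ∀ x ∈ B, 1 ≤ x) :
    Disjoint A (B.map (addLeftEmbedding a)) := by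
  rw [Finset.disjoint_left]
  intro x hx hx2
  rw [mem_map] at hx2
  obtain ⟨y, hy, rfl⟩ := hx2
  have h1 := hA _ hx
  have h2 := hB _ hy
  simp only [addLeftEmbedding_apply] at h1
  omega

theorem card_cat {a : ℕ} {A B : Finset ℕ} (hA : ∀ x ∈ A, x ≤ a) (hB : ∀ x ∈ B, 1 ≤ x) :
    (cat a A B).card = A.card + B.card := by
  unfold cat
  rw [Finset.card_union_of_disjoint (disjoint_cat hA hB), Finset.card_map]

/-- `X(A ∪ (a+B)) = X(A) + 3^{|A|} h^a X(B)` -/
theorem XS_cat {R : Type*} [CommRing R] (h : R) {a : ℕ} {A B : Finset ℕ}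
    (hA : ∀ x ∈ A, x ≤ a) (hB : ∀ x ∈ B, 1 ≤ x) :
    XS h (cat a A B) = XS h A + 3 ^ A.card * h ^ a * XS h B := by
  unfold XS
  have hdis := disjoint_cat hA hB
  have e0 : cat a A B = A ∪ B.map (addLeftEmbedding a) := rfl
  rw [e0, Finset.sum_union hdis]
  congr 1
  · apply Finset.sum_congr rfl
    intro x hx
    congr 3
    ext y
    simp only [mem_filter, mem_union, mem_map, addLeftEmbedding_apply]
    constructor
    · rintro ⟨h1 | ⟨z, hz, rfl⟩, h2⟩
      · exact ⟨h1, h2⟩
      · exfalso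
        have := hA x hx
        omega
    · rintro ⟨h1, h2⟩
      exact ⟨Or.inl h1, h2⟩
  · rw [Finset.sum_map, Finset.mul_sum]
    apply Finset.sum_congr rfl
    intro x hx
    have e1 : (A ∪ B.map (addLeftEmbedding a)).filter (fun y => y < addLeftEmbedding a x)
        = cat a A (B.filter (fun y => y < x)) := by
      ext y
      simp only [mem_filter, mem_union, mem_map, addLeftEmbedding_apply, cat]
      constructor
      · rintro ⟨h1 | ⟨z, hz, rfl⟩, h2⟩
        · exact Or.inl h1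
        · exact Or.inr ⟨z, ⟨hz, by omega⟩, rfl⟩
      · rintro (h1 | ⟨z, ⟨hz, hz2⟩, rfl⟩)
        · have h3 := hA y h1
          have h4 := hB x hx
          exact ⟨Or.inl h1, by omega⟩
        · exact ⟨Or.inr ⟨z, hz, rfl⟩, by omega⟩
    rw [e1, card_cat hA (fun y hy => hB y (mem_filter.mp hy).1), addLeftEmbedding_apply, pow_add,
      pow_add]
    ring

theorem XS_singleton {R : Type*} [CommRing R] (h : R) (a : ℕ) : XS h {a} = h ^ a := by
  unfold XS
  rw [Finset.sum_singleton, Finset.filter_singleton, if_neg (lt_irrefl a)]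
  simp

theorem cat_mem_Fam {a n c : ℕ} {S : Finset ℕ} (ha : 1 ≤ a) (hac : a ≤ c)
    (hS : S ∈ Fam n (c - a)) : cat a {a} S ∈ Fam (n + 1) c := by
  rw [mem_Fam] at hS ⊢
  obtain ⟨h1, h2, h3⟩ := hS
  refine ⟨?_, ?_, ?_⟩
  · intro x hx
    unfold cat at hx
    rw [mem_union, mem_singleton, mem_map] at hx
    rcases hx with rfl | ⟨y, hy, rfl⟩
    · exact ha
    · rw [addLeftEmbedding_apply]; omega
  · rw [card_cat (by simp) h1, Finset.card_singleton, h2]; omega
  · apply le_antisymm
    · apply Finset.sup_le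
      intro x hx
      unfold cat at hx
      rw [mem_union, mem_singleton, mem_map] at hx
      rcases hx with rfl | ⟨y, hy, rfl⟩
      · exact hac
      · have := Finset.le_sup (f := id) hy
        rw [h3] at this
        simp only [id] at this ⊢
        rw [addLeftEmbedding_apply]; omega
    · by_cases hne : S.Nonempty
      · obtain ⟨y, hy, hy2⟩ := Finset.exists_mem_eq_sup S hne id
        rw [h3] at hy2
        have h5 : a + y ∈ cat a {a} S := by
          unfold cat
          rw [mem_union, mem_map]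
          exact Or.inr ⟨y, hy, rfl⟩
        have := Finset.le_sup (f := id) h5
        simp only [id] at this hy2
        omega
      · rw [Finset.not_nonempty_iff_eq_empty] at hne
        subst hne
        rw [Finset.sup_empty] at h3
        have h5 : a ∈ cat a {a} ∅ := by
          unfold cat; simp
        have := Finset.le_sup (f := id) h5
        simp only [id, bot_eq_zero] at this h3
        omega

theorem cat_inj {a b : ℕ} {S T : Finset ℕ} (hS : ∀ x ∈ S, 1 ≤ x) (hT : ∀ x ∈ T, 1 ≤ x)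
    (h : cat a {a} S = cat b {b} T) : a = b ∧ S = T := by
  have key : ∀ (u v : ℕ) (U V : Finset ℕ), (∀ x ∈ V, 1 ≤ x) → cat u {u} U = cat v {v} V → v ≤ u := by
    intro u v U V hV he
    have : u ∈ cat v {v} V := by
      rw [← he]; unfold cat; simp
    unfold cat at this
    rw [mem_union, mem_singleton, mem_map] at this
    rcases this with h1 | ⟨y, hy, h1⟩
    · omega
    · rw [addLeftEmbedding_apply] at h1; omega
  have hab : a = b := le_antisymm (key b a T S hS h.symm) (key a b S T hT h)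
  subst hab
  refine ⟨rfl, ?_⟩
  have sub : ∀ (U V : Finset ℕ), (∀ x ∈ U, 1 ≤ x) → cat a {a} U = cat a {a} V → U ⊆ V := by
    intro U V hU he x hx
    have h1 : a + x ∈ cat a {a} V := by
      rw [← he]; unfold cat
      rw [mem_union, mem_map]
      exact Or.inr ⟨x, hx, rfl⟩
    unfold cat at h1
    rw [mem_union, mem_singleton, mem_map] at h1
    rcases h1 with h1 | ⟨y, hy, h1⟩
    · have := hU x hx; omega
    · rw [addLeftEmbedding_apply] at h1
      have : y = x := by omega
      exact this ▸ hy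
  exact Finset.Subset.antisymm (sub S T hS h) (sub T S hT h.symm)

theorem cat_surj {n c : ℕ} {S : Finset ℕ} (hS : S ∈ Fam (n + 1) c) :
    ∃ a, 1 ≤ a ∧ a ≤ c ∧ ∃ T ∈ Fam n (c - a), cat a {a} T = S := by
  rw [mem_Fam] at hS
  obtain ⟨h1, h2, h3⟩ := hS
  have hne : S.Nonempty := by
    rw [← Finset.card_pos]; omega
  set a := S.min' hne with ha
  have haS : a ∈ S := S.min'_mem hne
  have hmin : ∀ x ∈ S, a ≤ x := fun x hx => S.min'_le x hx
  have hmax : ∀ x ∈ S, x ≤ c := fun x hx => h3 ▸ Finset.le_sup (f := id) hx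
  refine ⟨a, h1 a haS, hmax a haS, (S.erase a).image (fun x => x - a), ?_, ?_⟩
  · rw [mem_Fam]
    refine ⟨?_, ?_, ?_⟩
    · intro x hx
      rw [mem_image] at hx
      obtain ⟨y, hy, rfl⟩ := hx
      rw [mem_erase] at hy
      have := hmin y hy.2
      omega
    · rw [Finset.card_image_of_injOn, Finset.card_erase_of_mem haS, h2]
      · rfl
      · intro x hx y hy hxy
        rw [Finset.mem_coe, mem_erase] at hx hy
        have e1 := hmin x hx.2
        have e2 := hmin y hy.2
        simp only at hxy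
        omega
    · apply le_antisymm
      · apply Finset.sup_le
        intro x hx
        rw [mem_image] at hx
        obtain ⟨y, hy, rfl⟩ := hx
        rw [mem_erase] at hy
        have := hmax y hy.2
        simp only [id]; omega
      · obtain ⟨y, hy, hy2⟩ := Finset.exists_mem_eq_sup S hne id
        rw [h3] at hy2
        simp only [id] at hy2
        by_cases hay : y = a
        · omega
        · have h5 : y - a ∈ (S.erase a).image (fun x => x - a) :=
            mem_image_of_mem _ (mem_erase.mpr ⟨hay, hy⟩)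
          have := Finset.le_sup (f := id) h5
          simp only [id] at this
          omega
  · ext x
    unfold cat
    simp only [mem_union, mem_singleton, mem_map, mem_image, mem_erase, addLeftEmbedding_apply]
    constructor
    · rintro (rfl | ⟨y, ⟨z, ⟨hz1, hz2⟩, rfl⟩, rfl⟩)
      · exact haS
      · have := hmin z hz2
        have e : a + (z - a) = z := by omega
        rw [e]; exact hz2
    · intro hx
      by_cases hxa : x = a
      · exact Or.inl hxa
      · right
        have := hmin x hx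
        exact ⟨x - a, ⟨x, ⟨hxa, hx⟩, rfl⟩, by omega⟩

/-- summation over `Fam (n+1) c` by the smallest element -/
theorem sum_Fam_succ {M : Type*} [AddCommMonoid M] (n c : ℕ) (f : Finset ℕ → M) :
    ∑ S ∈ Fam (n + 1) c, f S = ∑ a ∈ Icc 1 c, ∑ S ∈ Fam n (c - a), f (cat a {a} S) := by
  rw [Finset.sum_sigma']
  symm
  apply Finset.sum_bij (fun (p : Σ _ : ℕ, Finset ℕ) _ => cat p.1 {p.1} p.2)
  · rintro ⟨a, S⟩ hp
    rw [mem_sigma, mem_Icc] at hp
    exact cat_mem_Fam hp.1.1 hp.1.2 hp.2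
  · rintro ⟨a, S⟩ hp ⟨b, T⟩ hq he
    rw [mem_sigma] at hp hq
    obtain ⟨h1, h2⟩ := cat_inj (mem_Fam.mp hp.2).1 (mem_Fam.mp hq.2).1 he
    simp only at h1 h2
    subst h1 h2
    rfl
  · intro S hS
    obtain ⟨a, h1, h2, T, hT, he⟩ := cat_surj hS
    exact ⟨⟨a, T⟩, by rw [mem_sigma, mem_Icc]; exact ⟨⟨h1, h2⟩, hT⟩, he⟩
  · intro p _
    rfl

theorem Fam_zero_zero : Fam 0 0 = {∅} := by
  ext S
  rw [mem_Fam, mem_singleton]
  constructor
  · rintro ⟨_, h, _⟩; exact Finset.card_eq_zero.mp h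
  · rintro rfl; simp

theorem Fam_zero_succ (c : ℕ) (hc : c ≠ 0) : Fam 0 c = ∅ := by
  rw [Finset.eq_empty_iff_forall_notMem]
  intro S hS
  rw [mem_Fam] at hS
  obtain ⟨_, h, h3⟩ := hS
  rw [Finset.card_eq_zero.mp h, Finset.sup_empty] at h3
  exact hc h3.symm

/-- the recursive form of the exponential sum -/
noncomputable def G {R : Type*} [CommRing R] (h : R) (χ : AddChar R ℂ) : ℕ → ℕ → R → ℂ
  | 0, c, _ => if c = 0 then 1 else 0
  | k + 1, c, z => ∑ a ∈ Icc 1 c, (1 / 2 : ℂ) ^ a * χ (z * h ^ a) * G h χ k (c - a) (3 * h ^ a * z)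

theorem G_eq {R : Type*} [CommRing R] (h : R) (χ : AddChar R ℂ) (k : ℕ) :
    ∀ (c : ℕ) (z : R), G h χ k c z = (1 / 2 : ℂ) ^ c * ∑ S ∈ Fam k c, χ (z * XS h S) := by
  induction k with
  | zero =>
    intro c z
    unfold G
    split_ifs with hc
    · subst hc
      rw [Fam_zero_zero]
      simp [XS]
    · rw [Fam_zero_succ c hc]; simp
  | succ k ih =>
    intro c z
    unfold G
    rw [sum_Fam_succ, Finset.mul_sum]
    apply Finset.sum_congr rfl
    intro a ha
    rw [mem_Icc] at ha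
    rw [ih, Finset.mul_sum, Finset.mul_sum, Finset.mul_sum]
    apply Finset.sum_congr rfl
    intro S hS
    rw [XS_cat h (by simp) (mem_Fam.mp hS).1, XS_singleton, Finset.card_singleton, pow_one]
    have e1 : z * (h ^ a + 3 * h ^ a * XS h S) = z * h ^ a + 3 * h ^ a * z * XS h S := by ring
    rw [e1, AddChar.map_add_eq_mul]
    have e2 : (1 / 2 : ℂ) ^ c = (1 / 2 : ℂ) ^ a * (1 / 2 : ℂ) ^ (c - a) := by
      rw [← pow_add]; congr 1; omega
    rw [e2]; ring

theorem F_eq (n c : ℕ) (ξ : ZMod (3 ^ n)) :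
    F n c ξ = G (2⁻¹ : ZMod (3 ^ n)) ZMod.stdAddChar n c ξ := by
  rw [G_eq]; rfl

end Pool.Agent.Lib.MP_0a5adf_nt.H93
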