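import Mathlib
import Pool.Agent.Lib.MP_0a5adf_nt.H45.DecayIface
import Pool.Agent.Lib.MP_0a5adf_nt.H93.Fam
import Pool.Agent.Lib.MP_0a5adf_nt.H93.Exit

/-!
Finding 2240 (TAO+), step A1: the Fourier coefficients `F n c ξ` are bounded by `Q`.
-/

namespace Pool.Agent.Lib.MP_0a5adf_nt.H93

open Finset Pool.Agent.Lib.MP_0a5adf_nt.H45

section general

variable {R : Type*} [CommRing R] (h : R) (χ : AddChar R ℂ)

theorem half_sum_le (c : ℕ) : ∑ a ∈ Icc 1 c, (1 / 2 : ℝ) ^ a ≤ 1 := by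
  have : ∑ a ∈ Icc 1 c, (1 / 2 : ℝ) ^ a = 1 - (1 / 2) ^ c := by
    induction c with
    | zero => simp
    | succ c ih => rw [Finset.sum_Icc_succ_top (by omega), ih]; ring
  rw [this]
  have : (0 : ℝ) ≤ (1 / 2) ^ c := by positivity
  linarith

theorem G_norm_le_one (hχ : ∀ x, ‖χ x‖ = 1) (k : ℕ) : ∀ (c : ℕ) (z : R), ‖G h χ k c z‖ ≤ 1 := by
  induction k with
  | zero => intro c z; unfold G; split_ifs <;> simp
  | succ k ih =>
    intro c z
    unfold G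
    refine (norm_sum_le _ _).trans (le_trans ?_ (half_sum_le c))
    apply Finset.sum_le_sum
    intro a _
    rw [norm_mul, norm_mul, hχ, norm_pow, mul_one]
    have e : ‖(1 / 2 : ℂ)‖ = 1 / 2 := by norm_num
    rw [e]
    calc (1 / 2 : ℝ) ^ a * ‖G h χ k (c - a) (3 * h ^ a * z)‖ ≤ (1 / 2 : ℝ) ^ a * 1 :=
          mul_le_mul_of_nonneg_left (ih _ _) (by positivity)
      _ = (1 / 2 : ℝ) ^ a := mul_one _

theorem G_pair (k c : ℕ) (z : R) :
    G h χ (k + 2) c z = ∑ b ∈ Icc 2 c, (1 / 2 : ℂ) ^ b * (∑ a ∈ Icc 1 (b - 1), χ (z * h ^ a)) *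
      χ (3 * h ^ b * z) * G h χ k (c - b) (9 * h ^ b * z) := by
  have e1 : G h χ (k + 2) c z = ∑ a ∈ Icc 1 c, ∑ b ∈ Icc 1 (c - a),
      (1 / 2 : ℂ) ^ (a + b) * χ (z * h ^ a) * χ (3 * h ^ (a + b) * z) *
        G h χ k (c - (a + b)) (9 * h ^ (a + b) * z) := by
    show ∑ a ∈ Icc 1 c, (1 / 2 : ℂ) ^ a * χ (z * h ^ a) *
      (∑ b ∈ Icc 1 (c - a), (1 / 2 : ℂ) ^ b * χ (3 * h ^ a * z * h ^ b) *
        G h χ k (c - a - b) (3 * h ^ b * (3 * h ^ a * z))) = _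
    apply Finset.sum_congr rfl
    intro a _
    rw [Finset.mul_sum]
    apply Finset.sum_congr rfl
    intro b _
    have e2 : 3 * h ^ b * (3 * h ^ a * z) = 9 * h ^ (a + b) * z := by rw [pow_add]; ring
    have e3 : 3 * h ^ a * z * h ^ b = 3 * h ^ (a + b) * z := by rw [pow_add]; ring
    rw [e2, e3, Nat.sub_sub, pow_add]
    ring
  rw [e1]
  have e4 : ∀ b ∈ Icc 2 c, (1 / 2 : ℂ) ^ b * (∑ a ∈ Icc 1 (b - 1), χ (z * h ^ a)) *
      χ (3 * h ^ b * z) * G h χ k (c - b) (9 * h ^ b * z)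
      = ∑ a ∈ Icc 1 (b - 1), (1 / 2 : ℂ) ^ b * χ (z * h ^ a) * χ (3 * h ^ b * z) *
        G h χ k (c - b) (9 * h ^ b * z) := by
    intro b _
    rw [Finset.mul_sum, Finset.sum_mul, Finset.sum_mul]
  rw [Finset.sum_congr rfl e4, Finset.sum_sigma', Finset.sum_sigma']
  apply Finset.sum_bij' (fun (p : Σ _ : ℕ, ℕ) _ => (⟨p.1 + p.2, p.1⟩ : Σ _ : ℕ, ℕ))
    (fun (p : Σ _ : ℕ, ℕ) _ => (⟨p.2, p.1 - p.2⟩ : Σ _ : ℕ, ℕ))
  · rintro ⟨a, b⟩ hp
    simp only [mem_sigma, mem_Icc] at hp ⊢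
    omega
  · rintro ⟨a, b⟩ hp
    simp only [mem_sigma, mem_Icc] at hp ⊢
    omega
  · rintro ⟨a, b⟩ hp
    simp
  · rintro ⟨a, b⟩ hp
    simp only [mem_sigma, mem_Icc] at hp
    have : b + (a - b) = a := by omega
    simp [this]
  · rintro ⟨a, b⟩ hp
    rfl

theorem norm_one_add_exp (θ : ℝ) :
    ‖Complex.exp (2 * θ * Complex.I) + 1‖ = 2 * |Real.cos θ| := by
  have e1 : Complex.exp (2 * θ * Complex.I) + 1
      = Complex.exp (θ * Complex.I) * (2 * Complex.cos θ) := by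
    rw [Complex.two_cos, mul_add, ← Complex.exp_add, ← Complex.exp_add]
    congr 2
    · ring
    · rw [← Complex.exp_zero]; congr 1; ring
  rw [e1, norm_mul, Complex.norm_exp_ofReal_mul_I, one_mul, norm_mul]
  rw [← Complex.ofReal_cos, Complex.norm_real, Real.norm_eq_abs]
  norm_num

theorem inner_le (hχ : ∀ x, ‖χ x‖ = 1) (z : R) {b : ℕ} (hb : 2 ≤ b) :
    ‖∑ a ∈ Icc 1 (b - 1), χ (z * h ^ a)‖ ≤ (b : ℝ) - 1 := by
  refine (norm_sum_le _ _).trans ?_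
  simp only [hχ]
  rw [Finset.sum_const, Nat.card_Icc, nsmul_eq_mul, mul_one]
  rw [Nat.add_sub_cancel, Nat.cast_sub (by omega)]
  simp

theorem inner_three (hh : 2 * h = 1) (hχ : ∀ x, ‖χ x‖ = 1) (z : R) (θ : ℝ)
    (hθ : χ (2 * z * h ^ 3) = Complex.exp (2 * θ * Complex.I)) :
    ‖∑ a ∈ Icc 1 (3 - 1), χ (z * h ^ a)‖ = 2 * |Real.cos θ| := by
  have e0 : ∑ a ∈ Icc 1 (3 - 1), χ (z * h ^ a) = χ (z * h ^ 1) + χ (z * h ^ 2) := by
    rw [show (3 - 1 : ℕ) = 1 + 1 from rfl, Finset.sum_Icc_succ_top (by omega), Finset.Icc_self,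
      Finset.sum_singleton]
  have e1 : z * h ^ 1 = z * h ^ 2 + z * h ^ 2 := by
    have : z * h ^ 1 = z * h ^ 1 * (2 * h) := by rw [hh, mul_one]
    rw [this]; ring
  have e2 : z * h ^ 2 = 2 * z * h ^ 3 := by
    have : z * h ^ 2 = z * h ^ 2 * (2 * h) := by rw [hh, mul_one]
    rw [this]; ring
  rw [e0, e1, AddChar.map_add_eq_mul]
  have e3 : χ (z * h ^ 2) * χ (z * h ^ 2) + χ (z * h ^ 2)
      = χ (z * h ^ 2) * (χ (z * h ^ 2) + 1) := by ring
  rw [e3, norm_mul, hχ, one_mul, e2, hθ, norm_one_add_exp]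

theorem A1_core (he : EasyStatement) (hh : 2 * h = 1) (hχ : ∀ x, ‖χ x‖ = 1) (J B : ℕ)
    (ρ : ℕ → ℕ → ℤ) (z : R)
    (hz : ∀ j l, χ (9 ^ j * (2 * z) * h ^ l)
      = Complex.exp (2 * ((Real.pi * (ρ j l : ℝ) / (9 : ℝ) ^ J : ℝ) : ℂ) * Complex.I)) :
    ∀ m l c : ℕ, m ≤ J → ‖G h χ (2 * m) c (9 ^ (J - m) * z * h ^ l)‖
      ≤ Q ρ J B m l + m * (((B : ℝ) + 1) / 2 ^ B) := by
  intro m
  induction m with
  | zero =>
    intro l c _
    unfold G Q
    split_ifs <;> simp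
  | succ m ih =>
    intro l c hm
    set ε : ℝ := ((B : ℝ) + 1) / 2 ^ B with hε
    have hε0 : 0 ≤ ε := by positivity
    set w := 9 ^ (J - (m + 1)) * z * h ^ l with hw
    rw [show 2 * (m + 1) = 2 * m + 2 by ring, G_pair]
    have hterm : ∀ b ∈ Icc 2 c, ‖(1 / 2 : ℂ) ^ b * (∑ a ∈ Icc 1 (b - 1), χ (w * h ^ a)) *
        χ (3 * h ^ b * w) * G h χ (2 * m) (c - b) (9 * h ^ b * w)‖
        ≤ (((b : ℕ) : ℝ) - 1) / 2 ^ b * (if B < b then 1 else
          (wt ρ J (J - (m + 1)) l b * Q ρ J B m (l + b) + m * ε)) := by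
      intro b hb
      rw [mem_Icc] at hb
      have e1 : 9 * h ^ b * w = 9 ^ (J - m) * z * h ^ (l + b) := by
        rw [hw, show J - m = (J - (m + 1)) + 1 by omega, pow_succ, pow_add]; ring
      have hp := p_nonneg hb.1
      have hin : ‖∑ a ∈ Icc 1 (b - 1), χ (w * h ^ a)‖
          ≤ ((b : ℝ) - 1) * wt ρ J (J - (m + 1)) l b := by
        by_cases hb3 : b = 3
        · subst hb3
          have hθ : χ (2 * w * h ^ 3) = Complex.exp (2 * ((Real.pi *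
              (ρ (J - (m + 1)) (l + 3) : ℝ) / (9 : ℝ) ^ J : ℝ) : ℂ) * Complex.I) := by
            rw [← hz]; congr 1; rw [hw, pow_add]; ring
          rw [inner_three h χ hh hχ w _ hθ]
          unfold wt
          rw [if_pos rfl]
          apply le_of_eq
          norm_num
        · unfold wt
          rw [if_neg hb3, mul_one]
          exact inner_le h χ hχ w hb.1
      have hb1 : (0 : ℝ) ≤ (b : ℝ) - 1 := by
        have : (2 : ℝ) ≤ b := by exact_mod_cast hb.1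
        linarith
      rw [norm_mul, norm_mul, norm_mul, hχ, mul_one, norm_pow, e1]
      have e : ‖(1 / 2 : ℂ)‖ = 1 / 2 := by norm_num
      rw [e]
      have hG1 := G_norm_le_one h χ hχ (2 * m) (c - b) (9 ^ (J - m) * z * h ^ (l + b))
      have hw1 := wt_le_one ρ J (J - (m + 1)) l b
      have hw0 := wt_nonneg ρ J (J - (m + 1)) l b
      have hG0 := norm_nonneg (G h χ (2 * m) (c - b) (9 ^ (J - m) * z * h ^ (l + b)))
      have step1 : (1 / 2 : ℝ) ^ b * ‖∑ a ∈ Icc 1 (b - 1), χ (w * h ^ a)‖ *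
          ‖G h χ (2 * m) (c - b) (9 ^ (J - m) * z * h ^ (l + b))‖
          ≤ (((b : ℕ) : ℝ) - 1) / 2 ^ b * (wt ρ J (J - (m + 1)) l b *
            ‖G h χ (2 * m) (c - b) (9 ^ (J - m) * z * h ^ (l + b))‖) := by
        have e5 : (((b : ℕ) : ℝ) - 1) / 2 ^ b * (wt ρ J (J - (m + 1)) l b *
            ‖G h χ (2 * m) (c - b) (9 ^ (J - m) * z * h ^ (l + b))‖)
            = (1 / 2 : ℝ) ^ b * (((b : ℝ) - 1) * wt ρ J (J - (m + 1)) l b) *
              ‖G h χ (2 * m) (c - b) (9 ^ (J - m) * z * h ^ (l + b))‖ := by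
          rw [one_div_pow]; ring
        rw [e5]
        apply mul_le_mul_of_nonneg_right _ hG0
        exact mul_le_mul_of_nonneg_left hin (by positivity)
      refine step1.trans (mul_le_mul_of_nonneg_left ?_ hp)
      split_ifs with hBb
      · calc _ ≤ (1 : ℝ) * 1 := mul_le_mul hw1 hG1 hG0 zero_le_one
          _ = 1 := one_mul 1
      · have h6 := ih (l + b) (c - b) (by omega)
        have hQ0 := (he.2 B J ρ m (l + b)).1
        have hmε : (0 : ℝ) ≤ m * ε := by positivity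
        calc wt ρ J (J - (m + 1)) l b * ‖G h χ (2 * m) (c - b) (9 ^ (J - m) * z * h ^ (l + b))‖
            ≤ wt ρ J (J - (m + 1)) l b * (Q ρ J B m (l + b) + m * ε) :=
              mul_le_mul_of_nonneg_left h6 hw0
          _ = wt ρ J (J - (m + 1)) l b * Q ρ J B m (l + b)
              + wt ρ J (J - (m + 1)) l b * (m * ε) := by ring
          _ ≤ wt ρ J (J - (m + 1)) l b * Q ρ J B m (l + b) + 1 * (m * ε) := by
              have := mul_le_mul_of_nonneg_right hw1 hmε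
              linarith
          _ = _ := by rw [one_mul]
    refine (norm_sum_le _ _).trans ((Finset.sum_le_sum hterm).trans ?_)
    rw [← Finset.sum_filter_add_sum_filter_not (Icc 2 c) (fun b => B < b)]
    have hA : ∑ b ∈ (Icc 2 c).filter (fun b => B < b), (((b : ℕ) : ℝ) - 1) / 2 ^ b *
        (if B < b then 1 else (wt ρ J (J - (m + 1)) l b * Q ρ J B m (l + b) + m * ε)) ≤ ε := by
      have : ∀ b ∈ (Icc 2 c).filter (fun b => B < b), (((b : ℕ) : ℝ) - 1) / 2 ^ b *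
        (if B < b then 1 else (wt ρ J (J - (m + 1)) l b * Q ρ J B m (l + b) + m * ε))
        = (((b : ℕ) : ℝ) - 1) / 2 ^ b := by
        intro b hb
        rw [mem_filter] at hb
        rw [if_pos hb.2, mul_one]
      rw [Finset.sum_congr rfl this]
      exact sum_tail_le B c
    have hB : ∑ b ∈ (Icc 2 c).filter (fun b => ¬ B < b), (((b : ℕ) : ℝ) - 1) / 2 ^ b *
        (if B < b then 1 else (wt ρ J (J - (m + 1)) l b * Q ρ J B m (l + b) + m * ε))
        ≤ ∑ b ∈ Icc 2 B, (((b : ℕ) : ℝ) - 1) / 2 ^ b *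
          (wt ρ J (J - (m + 1)) l b * Q ρ J B m (l + b) + m * ε) := by
      have : ∀ b ∈ (Icc 2 c).filter (fun b => ¬ B < b), (((b : ℕ) : ℝ) - 1) / 2 ^ b *
        (if B < b then 1 else (wt ρ J (J - (m + 1)) l b * Q ρ J B m (l + b) + m * ε))
        = (((b : ℕ) : ℝ) - 1) / 2 ^ b *
          (wt ρ J (J - (m + 1)) l b * Q ρ J B m (l + b) + m * ε) := by
        intro b hb
        rw [mem_filter] at hb
        rw [if_neg hb.2]
      rw [Finset.sum_congr rfl this]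
      apply Finset.sum_le_sum_of_subset_of_nonneg
      · intro b hb
        rw [mem_filter, mem_Icc] at hb
        rw [mem_Icc]; omega
      · intro b hb _
        rw [mem_Icc] at hb
        apply mul_nonneg (p_nonneg hb.1)
        apply add_nonneg
        · exact mul_nonneg (wt_nonneg _ _ _ _ _) (he.2 B J ρ m (l + b)).1
        · positivity
    have hC : ∑ b ∈ Icc 2 B, (((b : ℕ) : ℝ) - 1) / 2 ^ b *
          (wt ρ J (J - (m + 1)) l b * Q ρ J B m (l + b) + m * ε)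
        ≤ Q ρ J B (m + 1) l + m * ε := by
      have e6 : ∑ b ∈ Icc 2 B, (((b : ℕ) : ℝ) - 1) / 2 ^ b *
          (wt ρ J (J - (m + 1)) l b * Q ρ J B m (l + b) + m * ε)
          = Q ρ J B (m + 1) l + (∑ b ∈ Icc 2 B, (((b : ℕ) : ℝ) - 1) / 2 ^ b) * (m * ε) := by
        rw [Finset.sum_mul]
        conv_rhs => unfold Q
        rw [← Finset.sum_add_distrib]
        apply Finset.sum_congr rfl
        intro b _
        ring
      rw [e6]
      have e7 : ∑ b ∈ Icc 2 B, (((b : ℕ) : ℝ) - 1) / 2 ^ b ≤ 1 := by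
        have := sum_tail_le 0 B
        rw [Finset.filter_true_of_mem] at this
        · simpa using this
        · intro b hb; rw [mem_Icc] at hb; omega
      have hmε : (0 : ℝ) ≤ m * ε := by positivity
      have := mul_le_mul_of_nonneg_right e7 hmε
      linarith
    push_cast
    have : ((m : ℝ) + 1) * ε = m * ε + ε := by ring
    rw [this]
    linarith

end general

/-- the table of signed residues -/
def tab (J : ℕ) (x H : ℤ) (j l : ℕ) : ℤ := Int.bmod (9 ^ j * (2 * x) * H ^ l) (9 ^ J)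

theorem tab_dvd (J : ℕ) (x H : ℤ) (j l : ℕ) :
    (9 : ℤ) ^ J ∣ tab J x H j l - 9 ^ j * (2 * x) * H ^ l := by
  have := Int.dvd_bmod_sub_self (x := 9 ^ j * (2 * x) * H ^ l) (m := 9 ^ J)
  push_cast at this
  exact this

theorem tab_rho (J : ℕ) (x H : ℤ) (hx : 0 < J → ¬ (3 : ℤ) ∣ x) (hH : (9 : ℤ) ^ J ∣ 2 * H - 1) :
    RhoData J (tab J x H) := by
  have hd := tab_dvd J x H
  refine ⟨?_, ?_, ?_, ?_, ?_⟩
  · intro j l
    have h1 : 2 * tab J x H j (l + 1) - tab J x H j l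
        = 2 * (tab J x H j (l + 1) - 9 ^ j * (2 * x) * H ^ (l + 1))
          - (tab J x H j l - 9 ^ j * (2 * x) * H ^ l)
          + (2 * H - 1) * (9 ^ j * (2 * x) * H ^ l) := by ring
    rw [h1]
    exact dvd_add (dvd_sub (Dvd.dvd.mul_left (hd _ _) _) (hd _ _)) (Dvd.dvd.mul_right hH _)
  · intro j l
    have h1 : tab J x H (j + 1) l - 9 * tab J x H j l
        = (tab J x H (j + 1) l - 9 ^ (j + 1) * (2 * x) * H ^ l)
          - 9 * (tab J x H j l - 9 ^ j * (2 * x) * H ^ l) := by ring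
    rw [h1]
    exact dvd_sub (hd _ _) (Dvd.dvd.mul_left (hd _ _) _)
  · intro j l
    have hpos : 0 < 9 ^ J := by positivity
    have h1 := Int.le_bmod (x := 9 ^ j * (2 * x) * H ^ l) (m := 9 ^ J) hpos
    have h2 := Int.bmod_lt (x := 9 ^ j * (2 * x) * H ^ l) (m := 9 ^ J) hpos
    have hodd : Odd (9 ^ J) := Odd.pow (by decide)
    obtain ⟨k, hk⟩ := hodd
    have hk2 : (9 : ℤ) ^ J = 2 * k + 1 := by exact_mod_cast hk
    rw [hk2]
    have h3 : |tab J x H j l| ≤ k := by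
      unfold tab
      rw [abs_le]
      push_cast at h1 h2
      rw [hk2] at h1 h2
      constructor <;> omega
    omega
  · intro j l hj h0
    have h1 := hd j l
    rw [h0, zero_sub, dvd_neg] at h1
    have h2 : (9 : ℤ) ^ j * 9 ∣ 9 ^ j * (2 * x * H ^ l) := by
      have : (9 : ℤ) ^ j * 9 ∣ 9 ^ J := by
        rw [← pow_succ]; exact pow_dvd_pow 9 (by omega)
      refine this.trans ?_
      have e : (9 : ℤ) ^ j * (2 * x * H ^ l) = 9 ^ j * (2 * x) * H ^ l := by ring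
      rw [e]; exact h1
    have h3 : (9 : ℤ) ∣ 2 * x * H ^ l := (mul_dvd_mul_iff_left (by positivity)).mp h2
    have h4 : (3 : ℤ) ∣ 2 * x * H ^ l := (by norm_num : (3 : ℤ) ∣ 9).trans h3
    have hp : Prime (3 : ℤ) := Int.prime_three
    have hH3 : (3 : ℤ) ∣ 2 * H - 1 := by
      refine ((by norm_num : (3 : ℤ) ∣ 9).trans (dvd_pow_self 9 (by omega))).trans hH
    rcases hp.dvd_or_dvd h4 with h5 | h5
    · rcases hp.dvd_or_dvd h5 with h6 | h6
      · omega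
      · exact hx (by omega) h6
    · have h6 := hp.dvd_of_dvd_pow h5
      omega
  · intro j l hj
    have h1 : (9 : ℤ) ^ j ∣ tab J x H j l - 9 ^ j * (2 * x) * H ^ l :=
      (pow_dvd_pow 9 hj).trans (hd j l)
    have h2 : (9 : ℤ) ^ j ∣ 9 ^ j * (2 * x) * H ^ l := ⟨2 * x * H ^ l, by ring⟩
    have := dvd_add h1 h2
    simpa using this

theorem exp_congr (q : ℕ) (hq : 0 < q) (K K' : ℤ) (h : (q : ℤ) ∣ K' - K) :
    Complex.exp (2 * Real.pi * Complex.I * K / q)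
      = Complex.exp (2 * ((Real.pi * (K' : ℝ) / (q : ℝ) : ℝ) : ℂ) * Complex.I) := by
  obtain ⟨t, ht⟩ := h
  have hK : (K' : ℂ) = K + q * t := by
    have : K' = K + q * t := by linarith
    rw [this]; push_cast; ring
  have hq0 : (q : ℂ) ≠ 0 := by exact_mod_cast hq.ne'
  rw [Complex.exp_eq_exp_iff_exists_int]
  refine ⟨-t, ?_⟩
  push_cast
  rw [hK]
  field_simp
  ring

/-- `|F_{n,c}(ξ)| ≤ K + (n/2)(B+1)/2^B` if `K` bounds `Q` for all tables. -/
theorem F_le (he : EasyStatement) (n c : ℕ) (ξ : ZMod (3 ^ n)) (hξ : IsUnit ξ) (B : ℕ) (K : ℝ)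
    (hK : ∀ ρ, RhoData (n / 2) ρ → Q ρ (n / 2) B (n / 2) 0 ≤ K) :
    ‖F n c ξ‖ ≤ K + (n / 2 : ℕ) * (((B : ℝ) + 1) / 2 ^ B) := by
  have hχ : ∀ x : ZMod (3 ^ n), ‖ZMod.stdAddChar x‖ = 1 := fun x => by
    rw [ZMod.stdAddChar_apply]; exact Circle.norm_coe _
  set J := n / 2 with hJ
  set h : ZMod (3 ^ n) := 2⁻¹ with hh
  set x : ℤ := (ξ.val : ℤ) with hx
  set H : ℤ := (h.val : ℤ) with hH
  have h2 : 2 * h = 1 := by
    have := ZMod.coe_mul_inv_eq_one (n := 3 ^ n) 2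
      (Nat.Coprime.pow_right n (by norm_num))
    rw [hh]; exact_mod_cast this
  have hxc : ((x : ℤ) : ZMod (3 ^ n)) = ξ := by
    rw [hx]; push_cast; exact ZMod.natCast_zmod_val ξ
  have hHc : ((H : ℤ) : ZMod (3 ^ n)) = h := by
    rw [hH]; push_cast; exact ZMod.natCast_zmod_val h
  have h9n : (9 : ℤ) ^ J ∣ (3 : ℤ) ^ n := by
    have : (9 : ℤ) ^ J = 3 ^ (2 * J) := by rw [pow_mul]; norm_num
    rw [this]; exact pow_dvd_pow 3 (by omega)
  have hH1 : (9 : ℤ) ^ J ∣ 2 * H - 1 := by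
    refine h9n.trans ?_
    have : (((2 * H - 1 : ℤ)) : ZMod (3 ^ n)) = 0 := by
      push_cast; rw [hHc, h2]; ring
    have := (ZMod.intCast_zmod_eq_zero_iff_dvd (2 * H - 1) (3 ^ n)).mp this
    exact_mod_cast this
  have hx3 : 0 < J → ¬ (3 : ℤ) ∣ x := by
    intro hJ0 h3
    have hn : n ≠ 0 := by omega
    have hc : Nat.Coprime ξ.val (3 ^ n) := by
      rw [← ZMod.isUnit_iff_coprime, ZMod.natCast_zmod_val]; exact hξ
    have hc3 : Nat.Coprime ξ.val 3 := (Nat.coprime_pow_right_iff (by omega) _ _).mp hc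
    have h3' : 3 ∣ ξ.val := by
      rw [hx] at h3; exact_mod_cast h3
    have := Nat.Coprime.eq_one_of_dvd hc3.symm h3'
    omega
  have hcast9 : ((9 ^ J : ℕ) : ℂ) = (9 : ℂ) ^ J := by push_cast; rfl
  rw [F_eq]
  rcases Nat.mod_two_eq_zero_or_one n with hpar | hpar
  · have hn : n = 2 * J := by omega
    have e0 : G h ZMod.stdAddChar n c ξ = G h ZMod.stdAddChar (2 * J) c ξ :=
      congrArg (fun k => G h ZMod.stdAddChar k c ξ) hn
    rw [e0]
    have hz : ∀ j l, (ZMod.stdAddChar (9 ^ j * (2 * ξ) * h ^ l) : ℂ)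
        = Complex.exp (2 * ((Real.pi * (tab J x H j l : ℝ) / (9 : ℝ) ^ J : ℝ) : ℂ) * Complex.I) := by
      intro j l
      have e1 : 9 ^ j * (2 * ξ) * h ^ l = ((9 ^ j * (2 * x) * H ^ l : ℤ) : ZMod (3 ^ n)) := by
        push_cast; rw [hxc, hHc]
      have e2 : ((3 ^ n : ℕ) : ℂ) = ((9 ^ J : ℕ) : ℂ) := by
        rw [hn, pow_mul]; norm_num
      have e3 := exp_congr (9 ^ J) (by positivity) (9 ^ j * (2 * x) * H ^ l) (tab J x H j l)
        (by push_cast; exact tab_dvd J x H j l)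
      rw [e1, ZMod.stdAddChar_coe, e2, e3]
      push_cast
      rfl
    have h5 := A1_core h ZMod.stdAddChar he h2 hχ J B (tab J x H) ξ hz J 0 c le_rfl
    rw [Nat.sub_self, pow_zero, one_mul, pow_zero, mul_one] at h5
    have h6 := hK _ (tab_rho J x H hx3 hH1)
    linarith
  · have hn : n = 2 * J + 1 := by omega
    have e0 : G h ZMod.stdAddChar n c ξ = G h ZMod.stdAddChar (2 * J + 1) c ξ :=
      congrArg (fun k => G h ZMod.stdAddChar k c ξ) hn
    rw [e0]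
    have hstep : ∀ a, ‖G h ZMod.stdAddChar (2 * J) (c - a) (3 * h ^ a * ξ)‖
        ≤ K + J * (((B : ℝ) + 1) / 2 ^ B) := by
      intro a
      have hz : ∀ j l, (ZMod.stdAddChar (9 ^ j * (2 * (3 * h ^ a * ξ)) * h ^ l) : ℂ)
          = Complex.exp (2 * ((Real.pi * (tab J (H ^ a * x) H j l : ℝ) / (9 : ℝ) ^ J : ℝ) : ℂ)
            * Complex.I) := by
        intro j l
        have e1 : 9 ^ j * (2 * (3 * h ^ a * ξ)) * h ^ l
            = ((3 * (9 ^ j * (2 * (H ^ a * x)) * H ^ l) : ℤ) : ZMod (3 ^ n)) := by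
          push_cast; rw [hxc, hHc]; ring
        have e2 : ((3 ^ n : ℕ) : ℂ) = 3 * ((9 ^ J : ℕ) : ℂ) := by
          rw [hn, pow_succ, pow_mul]; push_cast; ring
        have e3 := exp_congr (9 ^ J) (by positivity) (9 ^ j * (2 * (H ^ a * x)) * H ^ l)
          (tab J (H ^ a * x) H j l) (by push_cast; exact tab_dvd J (H ^ a * x) H j l)
        rw [e1, ZMod.stdAddChar_coe, e2]
        have e4 : 2 * (Real.pi : ℂ) * Complex.I *
            ((3 * (9 ^ j * (2 * (H ^ a * x)) * H ^ l) : ℤ) : ℂ) / (3 * ((9 ^ J : ℕ) : ℂ))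
            = 2 * (Real.pi : ℂ) * Complex.I * ((9 ^ j * (2 * (H ^ a * x)) * H ^ l : ℤ) : ℂ)
              / ((9 ^ J : ℕ) : ℂ) := by
          have : ((9 ^ J : ℕ) : ℂ) ≠ 0 := Nat.cast_ne_zero.mpr (by positivity)
          push_cast at this ⊢
          field_simp
        rw [e4, e3]
        push_cast
        rfl
      have h5 := A1_core h ZMod.stdAddChar he h2 hχ J B (tab J (H ^ a * x) H) (3 * h ^ a * ξ)
        hz J 0 (c - a) le_rfl
      rw [Nat.sub_self, pow_zero, one_mul, pow_zero, mul_one] at h5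
      have hx3' : 0 < J → ¬ (3 : ℤ) ∣ H ^ a * x := by
        intro hJ0 h3
        have hp : Prime (3 : ℤ) := Int.prime_three
        have hH3 : (3 : ℤ) ∣ 2 * H - 1 := by
          refine ((by norm_num : (3 : ℤ) ∣ 9).trans (dvd_pow_self 9 (by omega))).trans hH1
        rcases hp.dvd_or_dvd h3 with h5 | h5
        · have h6 := hp.dvd_of_dvd_pow h5
          omega
        · exact hx3 hJ0 h5
      have h6 := hK _ (tab_rho J (H ^ a * x) H hx3' hH1)
      linarith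
    have hM : 0 ≤ K + J * (((B : ℝ) + 1) / 2 ^ B) := (norm_nonneg _).trans (hstep 0)
    unfold G
    refine (norm_sum_le _ _).trans ?_
    calc ∑ a ∈ Icc 1 c, ‖(1 / 2 : ℂ) ^ a * ZMod.stdAddChar (ξ * h ^ a) *
          G h ZMod.stdAddChar (2 * J) (c - a) (3 * h ^ a * ξ)‖
        ≤ ∑ a ∈ Icc 1 c, (1 / 2 : ℝ) ^ a * (K + J * (((B : ℝ) + 1) / 2 ^ B)) := by
          apply Finset.sum_le_sum
          intro a _
          rw [norm_mul, norm_mul, hχ, norm_pow, mul_one]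
          have e : ‖(1 / 2 : ℂ)‖ = 1 / 2 := by norm_num
          rw [e]
          exact mul_le_mul_of_nonneg_left (hstep a) (by positivity)
      _ = (∑ a ∈ Icc 1 c, (1 / 2 : ℝ) ^ a) * (K + J * (((B : ℝ) + 1) / 2 ^ B)) := by
          rw [Finset.sum_mul]
      _ ≤ 1 * (K + J * (((B : ℝ) + 1) / 2 ^ B)) :=
          mul_le_mul_of_nonneg_right (half_sum_le c) hM
      _ = _ := one_mul _

theorem F_le_one (n c : ℕ) (ξ : ZMod (3 ^ n)) : ‖F n c ξ‖ ≤ 1 := by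
  rw [F_eq]
  exact G_norm_le_one _ _ (fun x => by rw [ZMod.stdAddChar_apply]; exact Circle.norm_coe _) _ _ _

/-- `(L+1)^e ≤ K 2^L` -/
theorem pow_le_const (e : ℕ) : ∃ K : ℝ, 0 < K ∧ ∀ L : ℕ, ((L : ℝ) + 1) ^ e ≤ K * 2 ^ L := by
  have h := tendsto_pow_const_div_const_pow_of_one_lt e (one_lt_two : (1 : ℝ) < 2)
  obtain ⟨M, hM⟩ := h.bddAbove_range
  refine ⟨2 * max M 1, by positivity, fun L => ?_⟩
  have h1 : ((L + 1 : ℕ) : ℝ) ^ e / 2 ^ (L + 1) ≤ M := hM ⟨L + 1, rfl⟩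
  rw [div_le_iff₀ (by positivity)] at h1
  push_cast at h1
  calc ((L : ℝ) + 1) ^ e ≤ M * 2 ^ (L + 1) := h1
    _ ≤ max M 1 * 2 ^ (L + 1) := mul_le_mul_of_nonneg_right (le_max_left _ _) (by positivity)
    _ = 2 * max M 1 * 2 ^ L := by rw [pow_succ]; ring

/-- (A) FOURIER DECAY: for all `A` there is `C` with `|F_{n,c}(ξ)| ≤ C n^{-A}` for all `n ≥ 1`, `c`
and all units `ξ`. -/
theorem fourier_decay (he : EasyStatement) (hd : DecayStatement) (A : ℕ) :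
    ∃ C : ℝ, 0 < C ∧ ∀ (n c : ℕ) (ξ : ZMod (3 ^ n)), 1 ≤ n → IsUnit ξ →
      ‖F n c ξ‖ ≤ C / (n : ℝ) ^ A := by
  obtain ⟨C₁, R, hD⟩ := hd (A + 1)
  obtain ⟨K, hK0, hK⟩ := pow_le_const (R * (A + 1))
  -- B ≤ (A + 6) (L + 1)
  set D : ℝ := ((C₁ : ℝ) * ((A : ℝ) + 6) ^ R * 3) ^ (A + 1) * K + ((A : ℝ) + 8) + 1 with hDdef
  have hDpos : 0 < D := by positivity
  refine ⟨D, hDpos, fun n c ξ hn hξ => ?_⟩
  have hn0 : (0 : ℝ) < n := by exact_mod_cast hn
  have hn1 : (1 : ℝ) ≤ n := by exact_mod_cast hn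
  by_cases hn2 : n = 1
  · subst hn2
    rw [Nat.cast_one, one_pow, div_one]
    refine (F_le_one 1 c ξ).trans ?_
    have : 0 ≤ ((C₁ : ℝ) * ((A : ℝ) + 6) ^ R * 3) ^ (A + 1) * K + ((A : ℝ) + 8) := by positivity
    linarith
  set L := Nat.log 2 n with hL
  have hL1 : 2 ^ L ≤ n := Nat.pow_log_le_self 2 (by omega)
  have hL2 : n < 2 ^ (L + 1) := Nat.lt_pow_succ_log_self (by norm_num) n
  set B := (A + 3) * (L + 1) + 3 with hB
  have hJ1 : 1 ≤ n / 2 := by omega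
  have hJn : (n : ℝ) / 3 ≤ ((n / 2 : ℕ) : ℝ) := by
    have : n ≤ 3 * (n / 2) := by omega
    have h2 : (n : ℝ) ≤ 3 * ((n / 2 : ℕ) : ℝ) := by exact_mod_cast this
    linarith
  have hJn2 : ((n / 2 : ℕ) : ℝ) ≤ n := by
    have : n / 2 ≤ n := Nat.div_le_self n 2
    exact_mod_cast this
  have hBr : (B : ℝ) ≤ ((A : ℝ) + 6) * ((L : ℝ) + 1) := by
    rw [hB]; push_cast
    have : (0 : ℝ) ≤ L := Nat.cast_nonneg L
    nlinarith
  have hF := F_le he n c ξ hξ B _ (fun ρ hρ => hD B (n / 2) ρ (by omega) hρ (n / 2) 0 hJ1 le_rfl)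
  have hLn : (2 : ℝ) ^ L ≤ n := by exact_mod_cast hL1
  have hnL : (n : ℝ) ≤ 2 ^ (L + 1) := by exact_mod_cast hL2.le
  have hJpos : (0 : ℝ) < ((n / 2 : ℕ) : ℝ) := by exact_mod_cast hJ1
  have hpA : (0 : ℝ) < (n : ℝ) ^ A := by positivity
  have part1 : (((C₁ * B ^ R : ℕ) : ℝ) / ((n / 2 : ℕ) : ℝ)) ^ (A + 1)
      ≤ ((C₁ : ℝ) * ((A : ℝ) + 6) ^ R * 3) ^ (A + 1) * K / (n : ℝ) ^ A := by
    have h1 : ((C₁ * B ^ R : ℕ) : ℝ) / ((n / 2 : ℕ) : ℝ)
        ≤ ((C₁ : ℝ) * ((A : ℝ) + 6) ^ R * 3) * ((L : ℝ) + 1) ^ R / n := by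
      rw [div_le_div_iff₀ hJpos hn0]
      push_cast
      have h2 : (B : ℝ) ^ R ≤ ((A : ℝ) + 6) ^ R * ((L : ℝ) + 1) ^ R := by
        rw [← mul_pow]; exact pow_le_pow_left₀ (Nat.cast_nonneg _) hBr R
      have h3 : (n : ℝ) ≤ 3 * ((n / 2 : ℕ) : ℝ) := by linarith
      calc (C₁ : ℝ) * (B : ℝ) ^ R * n
          ≤ (C₁ : ℝ) * (((A : ℝ) + 6) ^ R * ((L : ℝ) + 1) ^ R) * (3 * ((n / 2 : ℕ) : ℝ)) := by
            apply mul_le_mul _ h3 hn0.le (by positivity)
            exact mul_le_mul_of_nonneg_left h2 (Nat.cast_nonneg _)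
        _ = _ := by ring
    calc _ ≤ (((C₁ : ℝ) * ((A : ℝ) + 6) ^ R * 3) * ((L : ℝ) + 1) ^ R / n) ^ (A + 1) :=
          pow_le_pow_left₀ (by positivity) h1 _
      _ = ((C₁ : ℝ) * ((A : ℝ) + 6) ^ R * 3) ^ (A + 1) * (((L : ℝ) + 1) ^ (R * (A + 1)))
            / (n : ℝ) ^ (A + 1) := by
          rw [div_pow, mul_pow, ← pow_mul]
      _ ≤ ((C₁ : ℝ) * ((A : ℝ) + 6) ^ R * 3) ^ (A + 1) * (K * n) / (n : ℝ) ^ (A + 1) := by
          apply div_le_div_of_nonneg_right _ (by positivity)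
          apply mul_le_mul_of_nonneg_left _ (by positivity)
          exact (hK L).trans (mul_le_mul_of_nonneg_left hLn hK0.le)
      _ = _ := by
          rw [pow_succ (n : ℝ) A]
          field_simp
  have part2 : ((n / 2 : ℕ) : ℝ) * (((B : ℝ) + 1) / 2 ^ B) ≤ ((A : ℝ) + 8) / (n : ℝ) ^ A := by
    have h2B : (n : ℝ) ^ (A + 3) ≤ 2 ^ B := by
      calc (n : ℝ) ^ (A + 3) ≤ (2 ^ (L + 1)) ^ (A + 3) := pow_le_pow_left₀ hn0.le hnL _
        _ = 2 ^ ((A + 3) * (L + 1)) := by rw [← pow_mul]; congr 1; ring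
        _ ≤ 2 ^ B := pow_le_pow_right₀ (by norm_num) (by omega)
    have hLn' : (L : ℝ) + 1 ≤ n := by
      have : L < 2 ^ L := Nat.lt_two_pow_self
      have h3 : L + 1 ≤ n := by omega
      exact_mod_cast h3
    have hBn : (B : ℝ) + 1 ≤ ((A : ℝ) + 8) * n := by
      have h4 : ((A : ℝ) + 6) * ((L : ℝ) + 1) ≤ ((A : ℝ) + 6) * n :=
        mul_le_mul_of_nonneg_left hLn' (by positivity)
      nlinarith
    calc ((n / 2 : ℕ) : ℝ) * (((B : ℝ) + 1) / 2 ^ B)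
        ≤ n * ((((A : ℝ) + 8) * n) / (n : ℝ) ^ (A + 3)) := by
          apply mul_le_mul hJn2 _ (by positivity) hn0.le
          apply div_le_div₀ (by positivity) hBn (by positivity) h2B
      _ = ((A : ℝ) + 8) / (n : ℝ) ^ A * (1 / n) := by
          rw [pow_add]
          field_simp
      _ ≤ ((A : ℝ) + 8) / (n : ℝ) ^ A * 1 := by
          apply mul_le_mul_of_nonneg_left _ (by positivity)
          rw [div_le_one hn0]; exact hn1
      _ = _ := mul_one _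
  calc ‖F n c ξ‖ ≤ _ := hF
    _ ≤ ((C₁ : ℝ) * ((A : ℝ) + 6) ^ R * 3) ^ (A + 1) * K / (n : ℝ) ^ A
        + ((A : ℝ) + 8) / (n : ℝ) ^ A := add_le_add part1 part2
    _ = (((C₁ : ℝ) * ((A : ℝ) + 6) ^ R * 3) ^ (A + 1) * K + ((A : ℝ) + 8)) / (n : ℝ) ^ A := by
        rw [← add_div]
    _ ≤ D / (n : ℝ) ^ A := by
        apply div_le_div_of_nonneg_right _ hpA.le
        rw [hDdef]; linarith

end Pool.Agent.Lib.MP_0a5adf_nt.H93
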