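import Mathlib
import Pool.Agent.Lib.MP_0a5adf_nt.H45.Easy
import Pool.Agent.Lib.MP_0a5adf_nt.TAO.H2.Decay
import Pool.Agent.Lib.MP_0a5adf_nt.H93.A1

/-!
Finding 2240 (TAO+), part (A), final form (no hypotheses): superpolynomial decay of the Fourier
coefficients of the Syracuse random variables with fixed total length.
-/

namespace Pool.Agent.Lib.MP_0a5adf_nt.H93

/-- (A) FOURIER DECAY, unconditional. -/
theorem fourierDecay (A : ℕ) : ∃ C : ℝ, 0 < C ∧ ∀ (n c : ℕ) (ξ : ZMod (3 ^ n)), 1 ≤ n →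
    IsUnit ξ → ‖F n c ξ‖ ≤ C / (n : ℝ) ^ A :=
  fourier_decay Pool.Agent.Lib.MP_0a5adf_nt.H45.easy
    Pool.Agent.Lib.MP_0a5adf_nt.TAO.H2.decayStatement A

end Pool.Agent.Lib.MP_0a5adf_nt.H93
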