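import Mathlib
import Pool.Agent.Lib.MP_0a5adf_nt.TP.Interfaces
import Pool.Agent.Lib.MP_0a5adf_nt.H93.FourierDecay

/-!
Project TAO+, group F: FREC, BRIDGE, COL, FOURIER (all unconditional).
-/

namespace Pool.Agent.Lib.MP_0a5adf_nt.H93

open Finset

theorem xz_eq (q : ℕ) (S : Finset ℕ) : TP.xz q S = XS (2⁻¹ : ZMod q) S := rfl

theorem fam_eq (n c : ℕ) : TP.Fam n c = Fam n c := rfl

theorem cat_eq (a : ℕ) (A B : Finset ℕ) : TP.cat a A B = cat a A B := rfl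

theorem Fc_eq (n c : ℕ) (ξ : ZMod (3 ^ n)) : TP.Fc n c ξ = F n c ξ := by
  unfold TP.Fc F
  rw [div_eq_mul_inv, mul_comm, one_div, inv_pow]
  rfl

theorem two_mul_inv (n : ℕ) : (2 : ZMod (3 ^ n)) * 2⁻¹ = 1 := by
  have := ZMod.coe_mul_inv_eq_one (n := 3 ^ n) 2 (Nat.Coprime.pow_right n (by norm_num))
  exact_mod_cast this

theorem norm_std (N : ℕ) [NeZero N] (x : ZMod N) : ‖ZMod.stdAddChar x‖ = 1 := by
  rw [ZMod.stdAddChar_apply]; exact Circle.norm_coe _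

theorem std_three (n : ℕ) (w : ZMod (3 ^ (n + 1))) :
    (ZMod.stdAddChar (3 * w) : ℂ) = ZMod.stdAddChar
      (ZMod.castHom (pow_dvd_pow 3 (Nat.le_succ n)) (ZMod (3 ^ n)) w) := by
  obtain ⟨k, rfl⟩ : ∃ k : ℤ, ((k : ℤ) : ZMod (3 ^ (n + 1))) = w := ⟨w.valMinAbs, by simp⟩
  rw [map_intCast]
  have e1 : (3 : ZMod (3 ^ (n + 1))) * (k : ZMod (3 ^ (n + 1)))
      = ((3 * k : ℤ) : ZMod (3 ^ (n + 1))) := by push_cast; rfl
  rw [e1, ZMod.stdAddChar_coe, ZMod.stdAddChar_coe]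
  congr 1
  push_cast
  rw [pow_succ]
  field_simp

theorem cast_inv (n : ℕ) :
    ZMod.castHom (pow_dvd_pow 3 (Nat.le_succ n)) (ZMod (3 ^ n)) (2⁻¹ : ZMod (3 ^ (n + 1)))
      = 2⁻¹ := by
  set φ := ZMod.castHom (pow_dvd_pow 3 (Nat.le_succ n)) (ZMod (3 ^ n)) with hφ
  have h1 : (2 : ZMod (3 ^ n)) * φ (2⁻¹ : ZMod (3 ^ (n + 1))) = 1 := by
    have h2 : φ ((2 : ZMod (3 ^ (n + 1))) * 2⁻¹) = 1 := by rw [two_mul_inv, map_one]
    rwa [map_mul, map_ofNat] at h2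
  have h3 := two_mul_inv n
  calc φ (2⁻¹ : ZMod (3 ^ (n + 1))) = φ (2⁻¹ : ZMod (3 ^ (n + 1))) * (2 * 2⁻¹) := by
        rw [h3, mul_one]
    _ = (2 * φ (2⁻¹ : ZMod (3 ^ (n + 1)))) * 2⁻¹ := by ring
    _ = 2⁻¹ := by rw [h1, one_mul]

theorem map_XS {R S : Type*} [CommRing R] [CommRing S] (φ : R →+* S) (h : R) (A : Finset ℕ) :
    φ (XS h A) = XS (φ h) A := by
  unfold XS
  rw [map_sum]
  apply Finset.sum_congr rfl
  intro x _
  rw [map_mul, map_pow, map_pow, map_ofNat]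

/-- FREC -/
theorem frec : TP.FrecStatement := by
  intro n c ξ
  unfold TP.Fc
  rw [fam_eq, sum_Fam_succ, Finset.sum_div]
  apply Finset.sum_congr rfl
  intro a ha
  rw [mem_Icc] at ha
  set h : ZMod (3 ^ (n + 1)) := 2⁻¹ with hh
  have e2 : (2 : ℂ) ^ c = 2 ^ a * 2 ^ (c - a) := by
    rw [← pow_add]; congr 1; omega
  have e3 : ∀ S ∈ Fam n (c - a), (ZMod.stdAddChar (ξ * TP.xz (3 ^ (n + 1)) (cat a {a} S)) : ℂ)
      = ZMod.stdAddChar (ξ * h ^ a) * ZMod.stdAddChar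
        (ZMod.castHom (pow_dvd_pow 3 (Nat.le_succ n)) (ZMod (3 ^ n)) (ξ * h ^ a) *
          TP.xz (3 ^ n) S) := by
    intro S hS
    rw [xz_eq, xz_eq, XS_cat _ (by simp) (mem_Fam.mp hS).1, XS_singleton, Finset.card_singleton,
      pow_one, ← hh]
    have e1 : ξ * (h ^ a + 3 * h ^ a * XS h S) = ξ * h ^ a + 3 * (ξ * h ^ a * XS h S) := by ring
    rw [e1, AddChar.map_add_eq_mul, std_three, map_mul _ (ξ * h ^ a), map_XS, hh, cast_inv]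
  rw [Finset.sum_congr rfl e3, ← Finset.mul_sum, e2, fam_eq]
  rw [mul_div_assoc, mul_div_assoc, div_div, mul_comm ((2 : ℂ) ^ a)]

/-- BRIDGE -/
theorem bridge : TP.BridgeStatement := by
  intro J B c ξ hJ hB
  set h : ZMod (3 ^ (2 * J)) := 2⁻¹ with hh
  have hz : ∀ j l, (ZMod.stdAddChar (9 ^ j * (2 * ξ) * h ^ l) : ℂ)
      = Complex.exp (2 * ((Real.pi * (TP.rho J ξ j l : ℝ) / (9 : ℝ) ^ J : ℝ) : ℂ)
        * Complex.I) := by
    intro j l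
    have e1 : 9 ^ j * (2 * ξ) * h ^ l = ((TP.rho J ξ j l : ℤ) : ZMod (3 ^ (2 * J))) := by
      unfold TP.rho
      rw [ZMod.coe_valMinAbs, hh]; ring
    have e2 : ((3 ^ (2 * J) : ℕ) : ℂ) = ((9 ^ J : ℕ) : ℂ) := by
      rw [pow_mul]; norm_num
    have e3 := exp_congr (9 ^ J) (by positivity) (TP.rho J ξ j l) (TP.rho J ξ j l) (by simp)
    rw [e1, ZMod.stdAddChar_coe, e2, e3]
    push_cast
    rfl
  have h5 := A1_core h ZMod.stdAddChar H45.easy (two_mul_inv _) (norm_std _) J B (TP.rho J ξ) ξ hz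
    J 0 c le_rfl
  rw [Nat.sub_self, pow_zero, one_mul, pow_zero, mul_one] at h5
  rw [Fc_eq, F_eq, mul_div_assoc]
  exact h5

theorem rho_of (J : ℕ) (x H : ℤ) (hx : 0 < J → ¬ (3 : ℤ) ∣ x) (hH : (9 : ℤ) ^ J ∣ 2 * H - 1)
    (ρ : ℕ → ℕ → ℤ) (hd : ∀ j l, (9 : ℤ) ^ J ∣ ρ j l - 9 ^ j * (2 * x) * H ^ l)
    (hs : ∀ j l, 2 * |ρ j l| < (9 : ℤ) ^ J) : H45.RhoData J ρ := by
  refine ⟨?_, ?_, hs, ?_, ?_⟩
  · intro j l
    have h1 : 2 * ρ j (l + 1) - ρ j l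
        = 2 * (ρ j (l + 1) - 9 ^ j * (2 * x) * H ^ (l + 1))
          - (ρ j l - 9 ^ j * (2 * x) * H ^ l)
          + (2 * H - 1) * (9 ^ j * (2 * x) * H ^ l) := by ring
    rw [h1]
    exact dvd_add (dvd_sub (Dvd.dvd.mul_left (hd _ _) _) (hd _ _)) (Dvd.dvd.mul_right hH _)
  · intro j l
    have h1 : ρ (j + 1) l - 9 * ρ j l
        = (ρ (j + 1) l - 9 ^ (j + 1) * (2 * x) * H ^ l)
          - 9 * (ρ j l - 9 ^ j * (2 * x) * H ^ l) := by ring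
    rw [h1]
    exact dvd_sub (hd _ _) (Dvd.dvd.mul_left (hd _ _) _)
  · intro j l hj h0
    have h1 := hd j l
    rw [h0, zero_sub, dvd_neg] at h1
    have h2 : (9 : ℤ) ^ j * 9 ∣ 9 ^ j * (2 * x * H ^ l) := by
      have : (9 : ℤ) ^ j * 9 ∣ 9 ^ J := by
        rw [← pow_succ]; exact pow_dvd_pow 9 (by omega)
      refine this.trans ?_
      have e : (9 : ℤ) ^ j * (2 * x * H ^ l) = 9 ^ j * (2 * x) * H ^ l := by ring
      rw [e]; exact h1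
    have h3 : (9 : ℤ) ∣ 2 * x * H ^ l := (mul_dvd_mul_iff_left (by positivity)).mp h2
    have h4 : (3 : ℤ) ∣ 2 * x * H ^ l := (by norm_num : (3 : ℤ) ∣ 9).trans h3
    have hp : Prime (3 : ℤ) := Int.prime_three
    have hH3 : (3 : ℤ) ∣ 2 * H - 1 := by
      refine ((by norm_num : (3 : ℤ) ∣ 9).trans (dvd_pow_self 9 (by omega))).trans hH
    rcases hp.dvd_or_dvd h4 with h5 | h5
    · rcases hp.dvd_or_dvd h5 with h6 | h6
      · omega
      · exact hx (by omega) h6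
    · have h6 := hp.dvd_of_dvd_pow h5
      omega
  · intro j l hj
    have h1 : (9 : ℤ) ^ j ∣ ρ j l - 9 ^ j * (2 * x) * H ^ l :=
      (pow_dvd_pow 9 hj).trans (hd j l)
    have h2 : (9 : ℤ) ^ j ∣ 9 ^ j * (2 * x) * H ^ l := ⟨2 * x * H ^ l, by ring⟩
    have := dvd_add h1 h2
    simpa using this

/-- COL -/
theorem col : TP.ColStatement := by
  intro J ξ hJ hξ
  set h : ZMod (3 ^ (2 * J)) := 2⁻¹ with hh
  set x : ℤ := (ξ.val : ℤ) with hx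
  set H : ℤ := (h.val : ℤ) with hH
  have h2 : 2 * h = 1 := two_mul_inv (2 * J)
  have hxc : ((x : ℤ) : ZMod (3 ^ (2 * J))) = ξ := by
    rw [hx]; push_cast; exact ZMod.natCast_zmod_val ξ
  have hHc : ((H : ℤ) : ZMod (3 ^ (2 * J))) = h := by
    rw [hH]; push_cast; exact ZMod.natCast_zmod_val h
  have h9 : (9 : ℤ) ^ J = ((3 ^ (2 * J) : ℕ) : ℤ) := by
    rw [pow_mul]; norm_num
  apply rho_of J x H
  · intro _ h3
    apply hξ
    rw [hx] at h3; exact_mod_cast h3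
  · rw [h9, ← ZMod.intCast_zmod_eq_zero_iff_dvd]
    push_cast; rw [hHc, h2]; ring
  · intro j l
    rw [h9, ← ZMod.intCast_zmod_eq_zero_iff_dvd]
    push_cast
    rw [hHc, hxc]
    unfold TP.rho
    rw [ZMod.coe_valMinAbs, ← hh]
    ring
  · intro j l
    have h1 : (TP.rho J ξ j l).natAbs ≤ 3 ^ (2 * J) / 2 := ZMod.natAbs_valMinAbs_le _
    have hodd : Odd (9 ^ J) := Odd.pow (by decide)
    obtain ⟨k, hk⟩ := hodd
    have h9' : 3 ^ (2 * J) = 2 * k + 1 := by rw [← hk, pow_mul]; norm_num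
    rw [h9'] at h1
    have hk2 : (9 : ℤ) ^ J = 2 * k + 1 := by exact_mod_cast hk
    rw [hk2, Int.abs_eq_natAbs]
    omega

/-- FOURIER -/
theorem fourier : TP.FourierStatement := by
  intro A
  obtain ⟨C, hC, h⟩ := fourierDecay A
  refine ⟨C, hC, fun n c ξ hn hξ => ?_⟩
  rw [Fc_eq]
  apply h n c ξ hn
  rw [← ZMod.natCast_zmod_val ξ, ZMod.isUnit_iff_coprime]
  apply Nat.Coprime.pow_right
  rw [Nat.coprime_comm, Nat.Prime.coprime_iff_not_dvd Nat.prime_three]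
  exact hξ

end Pool.Agent.Lib.MP_0a5adf_nt.H93
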